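import Pool.Agent.LE.StmtsQE

namespace Pool.Agent.LE.QD.H23

open MeasureTheory ProbabilityTheory Function Filter
open Pool.Agent.Anderson hiding box mem_box card_box
open Pool.Agent.Loc Pool.Agent.Mob Pool.Agent.Helper54.Bal
  Pool.Agent.Helper96.EXP Pool.Agent.BED
open Pool.Agent.LE.MN Pool.Agent.LE.CL Pool.Agent.LE.IR

theorem mb {d : ℕ} {x y : Site d} {n : ℕ} :
    y ∈ box x n ↔ ∀ i, x i - n ≤ y i ∧ y i ≤ x i + n := by
  simp [box, Pi.le_def, forall_and]

theorem box_trans {d : ℕ} {b x : Site d} {r ρ : ℕ} (hx : x ∈ box b r) :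
    box x ρ ⊆ box b (r + ρ) := by
  intro y hy
  rw [mb] at *
  intro i
  have h1 := hx i
  have h2 := hy i
  push_cast
  constructor <;> linarith [h1.1, h1.2, h2.1, h2.2]

theorem box_mono {d : ℕ} {b : Site d} {r r' : ℕ} (h : r ≤ r') : box b r ⊆ box b r' := by
  intro y hy
  rw [mb] at *
  intro i
  have h1 := hy i
  have h2 : (r : ℤ) ≤ r' := by exact_mod_cast h
  constructor <;> linarith [h1.1, h1.2]

theorem self_mem_box {d : ℕ} (b : Site d) (r : ℕ) : b ∈ box b r := by
  rw [mb]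
  intro i
  have : (0 : ℤ) ≤ r := by positivity
  constructor <;> linarith

section

variable {d : ℕ} {V : Site d → ℝ} {Λ : Finset (Site d)} {E s : ℝ}

theorem rch_succ {b : Site d} {ρ j : ℕ} {y : Site d} : y ∈ rch V Λ E s b ρ (j + 1) ↔
    y ∈ rch V Λ E s b ρ j ∨
      (y ∈ box b ρ ∧ ∃ x ∈ rch V Λ E s b ρ j, Real.exp (-s) ≤ |gr V Λ E x y|) := by
  simp [rch]

theorem mem_clu {C B : Finset (Site d)} {y : Site d} : y ∈ clu V Λ E s C B ↔
    y ∈ C ∨ (y ∈ B ∧ ∃ x ∈ C, Real.exp (-s) ≤ |gr V Λ E x y|) := by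
  simp [clu]

theorem rch_mono {b : Site d} {ρ j k : ℕ} (h : j ≤ k) :
    rch V Λ E s b ρ j ⊆ rch V Λ E s b ρ k := by
  induction k, h using Nat.le_induction with
  | base => exact subset_rfl
  | succ k _ ih => exact fun y hy => rch_succ.2 (Or.inl (ih hy))

theorem self_mem_rch (b : Site d) (ρ j : ℕ) : b ∈ rch V Λ E s b ρ j :=
  rch_mono (Nat.zero_le j) (by simp [rch])

theorem rch_sub_box (b : Site d) (ρ j : ℕ) : rch V Λ E s b ρ j ⊆ box b ρ := by
  induction j with
  | zero =>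
    intro y hy
    have : y = b := by simpa [rch] using hy
    rw [this]
    exact self_mem_box b ρ
  | succ j ih =>
    intro y hy
    rcases rch_succ.1 hy with h | h
    · exact ih h
    · exact h.1

theorem rch_concat {b x : Site d} {ρ R j : ℕ} (hx : x ∈ rch V Λ E s b R j)
    (hb : box x ρ ⊆ box b R) (k : ℕ) : rch V Λ E s x ρ k ⊆ rch V Λ E s b R (j + k) := by
  induction k with
  | zero =>
    intro y hy
    have : y = x := by simpa [rch] using hy
    rw [this]
    exact hx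
  | succ k ih =>
    intro y hy
    rw [show j + (k + 1) = (j + k) + 1 by ring]
    rcases rch_succ.1 hy with h | ⟨h1, x', hx', h2⟩
    · exact rch_succ.2 (Or.inl (ih h))
    · exact rch_succ.2 (Or.inr ⟨hb h1, x', ih hx', h2⟩)

/-- the points reached from `U` by short paths -/
noncomputable def Ux (V : Site d → ℝ) (Λ : Finset (Site d)) (E s : ℝ) (ρ J : ℕ)
    (U : Finset (Site d)) : Finset (Site d) := by
  classical
  exact U.biUnion fun x => rch V Λ E s x ρ J

theorem mem_Ux {ρ J : ℕ} {U : Finset (Site d)} {y : Site d} :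
    y ∈ Ux V Λ E s ρ J U ↔ ∃ x ∈ U, y ∈ rch V Λ E s x ρ J := by
  simp [Ux]

/-- the growing sets -/
noncomputable def US (V : Site d → ℝ) (Λ : Finset (Site d)) (E s : ℝ) (b : Site d) (ρ J R₁ : ℕ) :
    ℕ → Finset (Site d)
  | 0 => {b}
  | i + 1 => clu V Λ E s (Ux V Λ E s ρ J (US V Λ E s b ρ J R₁ i)) (box b ((i + 1) * (R₁ + ρ)))

theorem Ux_box {b : Site d} {ρ J r : ℕ} {U : Finset (Site d)} (h : U ⊆ box b r) :
    Ux V Λ E s ρ J U ⊆ box b (r + ρ) := by
  intro y hy
  obtain ⟨x, hx, hyx⟩ := mem_Ux.1 hy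
  exact box_trans (h hx) (rch_sub_box x ρ J hyx)

theorem US_box (b : Site d) (ρ J R₁ i : ℕ) :
    US V Λ E s b ρ J R₁ i ⊆ box b (i * (R₁ + ρ)) := by
  induction i with
  | zero =>
    intro y hy
    have : y = b := by simpa [US] using hy
    rw [this]
    exact self_mem_box b _
  | succ i ih =>
    intro y hy
    rcases mem_clu.1 hy with h | ⟨h, _⟩
    · refine box_mono ?_ (Ux_box ih h)
      nlinarith
    · exact h

theorem US_nonempty (b : Site d) (ρ J R₁ i : ℕ) : b ∈ US V Λ E s b ρ J R₁ i := by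
  induction i with
  | zero => simp [US]
  | succ i ih =>
    exact mem_clu.2 (Or.inl (mem_Ux.2 ⟨b, ih, self_mem_rch b ρ J⟩))

theorem Ux_rch {b : Site d} {ρ R J j r : ℕ} {U : Finset (Site d)} (h : U ⊆ box b r)
    (hR : r + ρ ≤ R) (hU : U ⊆ rch V Λ E s b R j) :
    Ux V Λ E s ρ J U ⊆ rch V Λ E s b R (j + J) := by
  intro y hy
  obtain ⟨x, hx, hyx⟩ := mem_Ux.1 hy
  exact rch_concat (hU hx) ((box_trans (h hx)).trans (box_mono hR)) J hyx

theorem US_rch (b : Site d) (ρ R J R₁ i : ℕ) (hR : i * (R₁ + ρ) + ρ ≤ R) :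
    US V Λ E s b ρ J R₁ i ⊆ rch V Λ E s b R (i * (J + 1)) := by
  induction i with
  | zero =>
    intro y hy
    have : y = b := by simpa [US] using hy
    rw [this]
    exact self_mem_rch b R _
  | succ i ih =>
    have hR' : i * (R₁ + ρ) + ρ ≤ R := by nlinarith
    have h1 := Ux_rch (V := V) (Λ := Λ) (E := E) (s := s) (J := J) (US_box b ρ J R₁ i) hR' (ih hR')
    intro y hy
    rw [show (i + 1) * (J + 1) = (i * (J + 1) + J) + 1 by ring]
    rcases mem_clu.1 hy with h | ⟨h, x, hx, h2⟩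
    · exact rch_succ.2 (Or.inl (h1 h))
    · exact rch_succ.2 (Or.inr ⟨box_mono (by linarith) h, x, h1 hx, h2⟩)

/-- the index of the coarse cube -/
def idx (b : Site d) (L : ℕ) (y : Site d) : Site d := fun i => (y i - b i) / (L : ℤ)

theorem mem_cub {b k y : Site d} {L : ℕ} :
    y ∈ cub b L k ↔ ∀ i, b i + L * k i ≤ y i ∧ y i < b i + L * (k i + 1) := by
  simp [cub]

theorem idx_spec {b y : Site d} {L : ℕ} (hL : 1 ≤ L) : y ∈ cub b L (idx b L y) := by
  rw [mem_cub]
  intro i
  have hL' : (0 : ℤ) < L := by exact_mod_cast hL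
  have h := Int.mul_ediv_add_emod (y i - b i) L
  have h1 := Int.emod_nonneg (y i - b i) hL'.ne'
  have h2 := Int.emod_lt_of_pos (y i - b i) hL'
  have h3 : idx b L y i = (y i - b i) / (L : ℤ) := rfl
  rw [← h3] at h
  constructor
  · linarith
  · linarith [mul_add (L : ℤ) (idx b L y i) 1]

theorem dis {b x x' k k' : Site d} {L ρ : ℕ} (hρ : 2 * ρ ≤ L) (hx : x ∈ cub b L k)
    (hx' : x' ∈ cub b L k') (i : Fin d) (hk : k i + 2 ≤ k' i) {y : Site d} (hy : y ∈ box x ρ)
    (hy' : y ∈ box x' ρ) : False := by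
  rw [mem_cub] at hx hx'
  rw [mb] at hy hy'
  have h1 := (hx i).2
  have h2 := (hx' i).1
  have h3 := (hy i).2
  have h4 := (hy' i).1
  have h5 : (2 : ℤ) * ρ ≤ L := by exact_mod_cast hρ
  have h6 : (L : ℤ) * (k i + 2) ≤ L * k' i := mul_le_mul_of_nonneg_left hk (by positivity)
  nlinarith

theorem count {b : Site d} {ρ J L n : ℕ} {U : Finset (Site d)} (hL : 1 ≤ L) (hρ : 2 * ρ ≤ L)
    (hn : ∀ x ∈ U, n ≤ (rch V Λ E s x ρ J).card) :
    n * (U.image (idx b L)).card ≤ 2 ^ d * (Ux V Λ E s ρ J U).card := by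
  classical
  set I := U.image (idx b L) with hI
  have hch : ∀ k ∈ I, ∃ x, x ∈ U ∧ idx b L x = k := by
    intro k hk
    exact Finset.mem_image.1 hk
  choose! f hf using hch
  let par : Site d → (Fin d → ZMod 2) := fun k i => (k i : ZMod 2)
  have hclass : ∀ p : Fin d → ZMod 2,
      n * (I.filter fun k => par k = p).card ≤ (Ux V Λ E s ρ J U).card := by
    intro p
    have hdis : ((I.filter fun k => par k = p : Finset (Site d)) : Set (Site d)).PairwiseDisjoint
        (fun k => rch V Λ E s (f k) ρ J) := by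
      intro k hk k' hk' hne
      rw [Finset.mem_coe, Finset.mem_filter] at hk hk'
      obtain ⟨i, hi⟩ := Function.ne_iff.1 hne
      have hpar : ((k i : ℤ) : ZMod 2) = ((k' i : ℤ) : ZMod 2) := by
        have := congrFun (hk.2.trans hk'.2.symm) i
        exact this
      have hdvd : (2 : ℤ) ∣ k' i - k i := by
        have := (ZMod.intCast_eq_intCast_iff_dvd_sub (k i) (k' i) 2).1 hpar
        simpa using this
      have hfk : f k ∈ cub b L k := by
        have := idx_spec (b := b) (y := f k) hL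
        rwa [(hf k hk.1).2] at this
      have hfk' : f k' ∈ cub b L k' := by
        have := idx_spec (b := b) (y := f k') hL
        rwa [(hf k' hk'.1).2] at this
      refine Finset.disjoint_left.2 fun y hy hy' => ?_
      have hy1 := rch_sub_box (f k) ρ J hy
      have hy2 := rch_sub_box (f k') ρ J hy'
      rcases lt_or_gt_of_ne hi with h | h
      · exact dis hρ hfk hfk' i (by omega) hy1 hy2
      · exact dis hρ hfk' hfk i (by omega) hy2 hy1
    calc n * (I.filter fun k => par k = p).card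
        = ∑ k ∈ I.filter (fun k => par k = p), n := by rw [Finset.sum_const, smul_eq_mul, mul_comm]
      _ ≤ ∑ k ∈ I.filter (fun k => par k = p), (rch V Λ E s (f k) ρ J).card :=
          Finset.sum_le_sum fun k hk => hn _ (hf k (Finset.mem_filter.1 hk).1).1
      _ = ((I.filter fun k => par k = p).biUnion fun k => rch V Λ E s (f k) ρ J).card :=
          (Finset.card_biUnion hdis).symm
      _ ≤ (Ux V Λ E s ρ J U).card := by
          refine Finset.card_le_card fun y hy => ?_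
          obtain ⟨k, hk, hyk⟩ := Finset.mem_biUnion.1 hy
          exact mem_Ux.2 ⟨f k, (hf k (Finset.mem_filter.1 hk).1).1, hyk⟩
  have hsum : I.card = ∑ p : Fin d → ZMod 2, (I.filter fun k => par k = p).card :=
    Finset.card_eq_sum_card_fiberwise fun k _ => Finset.mem_coe.2 (Finset.mem_univ _)
  calc n * I.card = ∑ p : Fin d → ZMod 2, n * (I.filter fun k => par k = p).card := by
        rw [hsum, Finset.mul_sum]
    _ ≤ ∑ _p : Fin d → ZMod 2, (Ux V Λ E s ρ J U).card := Finset.sum_le_sum fun p _ => hclass p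
    _ = 2 ^ d * (Ux V Λ E s ρ J U).card := by
        rw [Finset.sum_const, Finset.card_univ, Fintype.card_fun, ZMod.card, Fintype.card_fin,
          smul_eq_mul]

end

theorem gro : GroStmt := by
  intro d V Λ E s b ρ R R₁ J₁ J₂ L n N₀ hd hN₀ hL hρ hJ₂ hR hn
  classical
  set U := US V Λ E s b ρ J₁ R₁ with hU
  set a : ℕ → ℕ := fun i => ((U i).image (idx b L)).card with ha
  have hle : ∀ i, i ≤ J₂ → i * (R₁ + ρ) + ρ ≤ R := by
    intro i hi
    have := Nat.mul_le_mul_right (R₁ + ρ) hi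
    omega
  have hbox : ∀ i, U i ⊆ box b (i * (R₁ + ρ)) := fun i => US_box b ρ J₁ R₁ i
  have hcount : ∀ i, i ≤ J₂ → n * a i ≤ 2 ^ d * (Ux V Λ E s ρ J₁ (U i)).card := by
    intro i hi
    refine count hL hρ fun x hx => hn x ?_
    exact box_mono (by have := hle i hi; omega) (hbox i hx)
  by_cases hA : ∃ i, i ≤ J₂ ∧ N₀ ≤ a i
  · left
    obtain ⟨i, hi, hai⟩ := hA
    have h1 : Ux V Λ E s ρ J₁ (U i) ⊆ rch V Λ E s b R (i * (J₁ + 1) + J₁) :=
      Ux_rch (hbox i) (hle i hi) (US_rch b ρ R J₁ R₁ i (hle i hi))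
    have h2 : i * (J₁ + 1) + J₁ ≤ (J₁ + 1) * (J₂ + 1) := by
      have := Nat.mul_le_mul_right (J₁ + 1) hi
      nlinarith
    calc n * N₀ ≤ n * a i := Nat.mul_le_mul_left n hai
      _ ≤ 2 ^ d * (Ux V Λ E s ρ J₁ (U i)).card := hcount i hi
      _ ≤ 2 ^ d * (rch V Λ E s b R ((J₁ + 1) * (J₂ + 1))).card :=
          Nat.mul_le_mul_left _ (Finset.card_le_card (h1.trans (rch_mono h2)))
  · right
    push Not at hA
    have ha0 : 1 ≤ a 0 := by
      refine Finset.card_pos.2 ⟨idx b L b, Finset.mem_image.2 ⟨b, ?_, rfl⟩⟩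
      exact US_nonempty b ρ J₁ R₁ 0
    have hex : ∃ i, i < J₂ ∧ a (i + 1) ≤ 2 * a i := by
      by_contra hno
      push Not at hno
      have h2 : ∀ i, i ≤ J₂ → 2 ^ i ≤ a i := by
        intro i
        induction i with
        | zero => intro _; simpa using ha0
        | succ i ih =>
          intro hi
          have h3 := ih (by omega)
          have h4 := hno i (by omega)
          rw [pow_succ]
          omega
      have h3 := h2 J₂ le_rfl
      have h4 := hA J₂ le_rfl
      omega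
    obtain ⟨i, hi, hai⟩ := hex
    have hai' := hA i hi.le
    have hUi : U (i + 1) = clu V Λ E s (Ux V Λ E s ρ J₁ (U i)) (box b ((i + 1) * (R₁ + ρ))) := rfl
    have hr : i * (R₁ + ρ) + ρ + R₁ = (i + 1) * (R₁ + ρ) := by ring
    have hRi : (i + 1) * (R₁ + ρ) + ρ ≤ R := hle (i + 1) hi
    refine ⟨i * (R₁ + ρ) + ρ, Ux V Λ E s ρ J₁ (U i), (U (i + 1)).image (idx b L), ?_, ?_, ?_, ?_,
      ?_, ?_, ?_, ?_⟩
    · rw [hr]; omega
    · exact ⟨b, mem_Ux.2 ⟨b, US_nonempty b ρ J₁ R₁ i, self_mem_rch b ρ J₁⟩⟩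
    · exact Ux_box (hbox i)
    · exact ⟨idx b L b, Finset.mem_image.2 ⟨b, US_nonempty b ρ J₁ R₁ (i + 1), rfl⟩⟩
    · show a (i + 1) ≤ 2 * N₀
      omega
    · show n * a (i + 1) ≤ 2 ^ (d + 1) * (Ux V Λ E s ρ J₁ (U i)).card
      have h1 := hcount i hi.le
      have h2 : n * a (i + 1) ≤ n * (2 * a i) := Nat.mul_le_mul_left n hai
      rw [pow_succ]
      nlinarith
    · intro y hy
      rw [hr, ← hUi] at hy
      exact ⟨idx b L y, Finset.mem_image.2 ⟨y, hy, rfl⟩, idx_spec hL⟩
    · intro k hk w hw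
      obtain ⟨y, hy, rfl⟩ := Finset.mem_image.1 hk
      have h1 := box_mono (by omega) (hbox (i + 1) hy) (r' := R)
      have h2 := idx_spec (b := b) (y := y) hL
      rw [mem_cub] at h2 hw
      rw [mb] at h1 ⊢
      intro j
      have h3 := h2 j
      have h4 := hw j
      have h5 := h1 j
      push_cast
      constructor
      · linarith [h3.1, h3.2, h4.1, h4.2, h5.1, h5.2, mul_add (L : ℤ) (idx b L y j) 1]
      · linarith [h3.1, h3.2, h4.1, h4.2, h5.1, h5.2, mul_add (L : ℤ) (idx b L y j) 1]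

end Pool.Agent.LE.QD.H23
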